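import Mathlib
import Pool.Agent.H499R2.HL.E

set_option autoImplicit false

/-! The limit law of the total stopping time of the `3x+1` function, under the `3x+1` conjecture. -/

namespace Pool.Agent.Results.MP_529d88_nt.NormalLaw

open Filter Topology

/-- the `3x+1` function -/
def T (n : ℕ) : ℕ := if n % 2 = 0 then n / 2 else (3 * n + 1) / 2

/-- the total stopping time (the least `k` with `T^k n = 1`) -/
noncomputable def sigma (n : ℕ) : ℕ := sInf {k : ℕ | T^[k] n = 1}

/-- the number of odd terms among `n, T n, ..., T^(k-1) n` -/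
def odds (k n : ℕ) : ℕ := ((Finset.range k).filter fun i => T^[i] n % 2 = 1).card

/-- the positive integers with the property `P` have the natural density `δ` -/
def HasDensity (P : ℕ → Prop) (δ : ℝ) : Prop :=
  Tendsto (fun N : ℕ => ({n : ℕ | 1 ≤ n ∧ n ≤ N ∧ P n}.ncard : ℝ) / N) atTop (𝓝 δ)

/-- `2 / log (4/3) * log n + x * log 3 * √(2 log n / (log (4/3))^3)` -/
noncomputable def bound (x : ℝ) (n : ℕ) : ℝ :=
  2 / Real.log (4 / 3) * Real.log n
    + x * (Real.log 3 * Real.sqrt (2 * Real.log n / Real.log (4 / 3) ^ 3))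

/-- The distribution function of the standard normal law. -/
noncomputable def Phi (x : ℝ) : ℝ :=
  ProbabilityTheory.cdf (ProbabilityTheory.gaussianReal 0 1) x

open Pool.Agent.H499R2.HL (H) in
theorem sigma_eq {n k : ℕ} (h : H k n) : sigma n = k := by
  unfold sigma
  apply le_antisymm
  · exact Nat.sInf_le h.1
  · apply le_csInf ⟨k, h.1⟩
    intro j hj
    by_contra hcon
    push Not at hcon
    exact h.2 j hcon hj

/-- THE LIMIT LAW, under the hypothesis of the question. If every positive integer reaches `1`, then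
for all `m, Q ≥ 1`, `a`, `b`, `r` and every real `x` the `n ≡ r` modulo `Q` with total stopping time at
most `bound x n`, `≡ a` modulo `m`, and number of odd terms before reaching `1` `≡ b` modulo `m` have
natural density `Phi x / (m ^ 2 * Q)`. -/
theorem result (hyp : ∀ n : ℕ, 1 ≤ n → ∃ k, T^[k] n = 1) (m : ℕ) (a b : ℤ) (hm : 1 ≤ m) (Q r : ℕ)
    (hQ : 1 ≤ Q) (x : ℝ) :
    HasDensity (fun n => n % Q = r % Q ∧ (sigma n : ℝ) ≤ bound x n ∧
      (sigma n : ℤ) ≡ a [ZMOD m] ∧ (odds (sigma n) n : ℤ) ≡ b [ZMOD m]) (Phi x / (m ^ 2 * Q)) := by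
  obtain ⟨δ, h0, h1, h2, h3, h4⟩ := Pool.Agent.H499R2.HL.law_class
  have hδ : δ = 1 := h2.2 hyp
  have h5 := h4 m a b hm Q r hQ x
  have e : δ / (m : ℝ) ^ 2 * Pool.Agent.H499R2.ND.Phi x / Q = Phi x / (m ^ 2 * Q) := by
    unfold Phi
    rw [← Pool.Agent.H499R2.ND.phi_cdf, hδ]
    field_simp
  rw [e] at h5
  refine Pool.Agent.H499R2.LT.Dn_iff (fun n hn => and_congr_right fun _ => ?_) h5
  constructor
  · rintro ⟨k, hk, hH, hk1, hk2⟩
    have hs := sigma_eq hH
    rw [hs]
    exact ⟨hk, hk1, hk2⟩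
  · rintro ⟨hk, hk1, hk2⟩
    classical
    have hex := hyp n hn
    have hH : Pool.Agent.H499R2.HL.H (Nat.find hex) n :=
      ⟨Nat.find_spec hex, fun i hi => Nat.find_min hex hi⟩
    have hs := sigma_eq hH
    rw [hs] at hk hk1 hk2
    exact ⟨_, hk, hH, hk1, hk2⟩

end Pool.Agent.Results.MP_529d88_nt.NormalLaw
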