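import Mathlib
import Pool.Agent.H499R2.NDLln3

set_option autoImplicit false

/-! Averages of the total stopping time of the 3x+1 function. -/

namespace Pool.Agent.Results.MP_529d88_nt.TruncatedAverages

open Filter Topology Finset

/-- the `3x+1` function -/
def T (n : ℕ) : ℕ := if n % 2 = 0 then n / 2 else (3 * n + 1) / 2

/-- the total stopping time (the least `k` with `T^k n = 1`) -/
noncomputable def sigma (n : ℕ) : ℕ := sInf {k : ℕ | T^[k] n = 1}

theorem sigma_eq {n t : ℕ} (h1 : T^[t] n = 1) (h2 : ∀ j < t, T^[j] n ≠ 1) : sigma n = t := by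
  unfold sigma
  apply le_antisymm
  · exact Nat.sInf_le h1
  · apply le_csInf ⟨t, h1⟩
    intro k hk
    by_contra hcon
    push Not at hcon
    exact h2 k hcon hk

/-- few exceptions -/
theorem few (hyp : ∀ n : ℕ, 1 ≤ n → ∃ k, T^[k] n = 1) {ε : ℝ} (hε : 0 < ε) :
    ∀ᶠ N : ℕ in atTop, ({n : ℕ | 1 ≤ n ∧ n ≤ N ∧
      ¬ |(sigma n : ℝ) - 2 / Real.log (4 / 3) * Real.log n| ≤ ε * Real.log n}.ncard : ℝ) ≤ ε * N := by
  classical
  obtain ⟨δ, h0, h1, h2, h3⟩ := Pool.Agent.H499R2.ND.Bas_density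
  have hδ : δ = 1 := h2.2 hyp
  subst hδ
  have h := Pool.Agent.H499R2.ND.bas_profile h3 hε
  have h4 : Tendsto (fun N : ℕ => ({n : ℕ | 1 ≤ n ∧ n ≤ N ∧
      |(sigma n : ℝ) - 2 / Real.log (4 / 3) * Real.log n| ≤ ε * Real.log n}.ncard : ℝ) / N) atTop (𝓝 1) := by
    apply tendsto_of_tendsto_of_tendsto_of_le_of_le' h tendsto_const_nhds
    · filter_upwards with N
      apply div_le_div_of_nonneg_right _ (by positivity)
      unfold Pool.Agent.H499R2.ND.cnt
      refine Nat.cast_le.2 (Set.ncard_le_ncard ?_ ?_)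
      · rintro n ⟨g1, g2, t, g3, g4, g5, g6⟩
        refine ⟨g1, g2, ?_⟩
        rw [sigma_eq g3 g4]
        exact g5
      · exact (Set.finite_Icc 1 N).subset (fun n hn => ⟨hn.1, hn.2.1⟩)
    · filter_upwards with N
      apply div_le_one_of_le₀ _ (by positivity)
      have : {n : ℕ | 1 ≤ n ∧ n ≤ N ∧
        |(sigma n : ℝ) - 2 / Real.log (4 / 3) * Real.log n| ≤ ε * Real.log n}.ncard ≤ (Icc 1 N).card := by
        rw [← Set.ncard_coe_finset]
        apply Set.ncard_le_ncard
        · rintro n ⟨g1, g2, _⟩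
          rw [mem_coe, mem_Icc]; exact ⟨g1, g2⟩
        · exact Finset.finite_toSet _
      rw [Nat.card_Icc, Nat.add_sub_cancel] at this
      exact_mod_cast this
  filter_upwards [h4.eventually (lt_mem_nhds (show 1 - ε < 1 by linarith)), eventually_gt_atTop 0] with N hN hN0
  have hNr : (0 : ℝ) < N := by exact_mod_cast hN0
  have hc : {n : ℕ | 1 ≤ n ∧ n ≤ N ∧
      |(sigma n : ℝ) - 2 / Real.log (4 / 3) * Real.log n| ≤ ε * Real.log n}.ncard +
      {n : ℕ | 1 ≤ n ∧ n ≤ N ∧
      ¬ |(sigma n : ℝ) - 2 / Real.log (4 / 3) * Real.log n| ≤ ε * Real.log n}.ncard = N := by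
    have e1 : {n : ℕ | 1 ≤ n ∧ n ≤ N ∧
      |(sigma n : ℝ) - 2 / Real.log (4 / 3) * Real.log n| ≤ ε * Real.log n} =
      (((Icc 1 N).filter (fun n => |(sigma n : ℝ) - 2 / Real.log (4 / 3) * Real.log n| ≤ ε * Real.log n) :
        Finset ℕ) : Set ℕ) := by
      ext n; simp only [coe_filter, mem_Icc, Set.mem_ofPred_eq]; tauto
    have e2 : {n : ℕ | 1 ≤ n ∧ n ≤ N ∧
      ¬ |(sigma n : ℝ) - 2 / Real.log (4 / 3) * Real.log n| ≤ ε * Real.log n} =
      (((Icc 1 N).filter (fun n => ¬ |(sigma n : ℝ) - 2 / Real.log (4 / 3) * Real.log n| ≤ ε * Real.log n) :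
        Finset ℕ) : Set ℕ) := by
      ext n; simp only [coe_filter, mem_Icc, Set.mem_ofPred_eq]; tauto
    rw [e1, e2, Set.ncard_coe_finset, Set.ncard_coe_finset, card_filter_add_card_filter_not]
    simp
  have hc' : ({n : ℕ | 1 ≤ n ∧ n ≤ N ∧
      |(sigma n : ℝ) - 2 / Real.log (4 / 3) * Real.log n| ≤ ε * Real.log n}.ncard : ℝ) +
      ({n : ℕ | 1 ≤ n ∧ n ≤ N ∧
      ¬ |(sigma n : ℝ) - 2 / Real.log (4 / 3) * Real.log n| ≤ ε * Real.log n}.ncard : ℝ) = N := by
    exact_mod_cast hc
  rw [lt_div_iff₀ hNr] at hN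
  linarith

/-- Assume that every positive integer reaches `1`.
* For every real `Λ > 2 / log (4/3)`, with `L = Λ log N`: the average of `min (σ n) L` over `n ≤ N` is
  asymptotic to `2 / log (4/3) * log N`.
* For every real `c < 2 / log (4/3)` the average of `σ n` over `n ≤ N` is at least `c log N` for all
  large `N`. -/
theorem result (hyp : ∀ n : ℕ, 1 ≤ n → ∃ k, T^[k] n = 1) :
    (∀ Λ : ℝ, 2 / Real.log (4 / 3) < Λ →
      Tendsto (fun N : ℕ => (1 / (N : ℝ) * ∑ n ∈ Icc 1 N, min (sigma n : ℝ) (Λ * Real.log N)) / Real.log N)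
        atTop (𝓝 (2 / Real.log (4 / 3)))) ∧
    (∀ c : ℝ, c < 2 / Real.log (4 / 3) → ∀ᶠ N : ℕ in atTop,
      c * Real.log N ≤ 1 / (N : ℝ) * ∑ n ∈ Icc 1 N, (sigma n : ℝ)) := by
  classical
  set γ : ℝ := 2 / Real.log (4 / 3) with hγ
  have hγ0 : 0 < γ := div_pos (by norm_num) (Real.log_pos (by norm_num))
  have main : ∀ Λ : ℝ, γ < Λ →
      Tendsto (fun N : ℕ => (1 / (N : ℝ) * ∑ n ∈ Icc 1 N, min (sigma n : ℝ) (Λ * Real.log N)) / Real.log N)
        atTop (𝓝 γ) := by
    intro Λ hΛ
    have hΛ0 : 0 < Λ := hγ0.trans hΛ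
    rw [Metric.tendsto_atTop]
    intro η hη
    set ε : ℝ := min (1 / 2) (η / (4 * (1 + 2 * Λ))) with hε
    have hε0 : 0 < ε := lt_min (by norm_num) (by positivity)
    have hε1 : ε * (1 + 2 * Λ) ≤ η / 4 := by
      have : ε ≤ η / (4 * (1 + 2 * Λ)) := min_le_right _ _
      calc ε * (1 + 2 * Λ) ≤ η / (4 * (1 + 2 * Λ)) * (1 + 2 * Λ) :=
            mul_le_mul_of_nonneg_right this (by positivity)
        _ = η / 4 := by field_simp
    have hlogT : Tendsto (fun N : ℕ => Real.log (N : ℝ)) atTop atTop :=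
      Real.tendsto_log_atTop.comp tendsto_natCast_atTop_atTop
    have hev := (few hyp hε0).and (hlogT.eventually_ge_atTop (max 1 (4 * γ * |Real.log ε| / η)))
    obtain ⟨N0, hN0⟩ := eventually_atTop.1 (hev.and (eventually_ge_atTop 1))
    refine ⟨N0, fun N hN => ?_⟩
    obtain ⟨⟨h1, h2⟩, h3⟩ := hN0 N hN
    have hNr : (0 : ℝ) < N := by exact_mod_cast h3
    set y := Real.log (N : ℝ) with hy
    have hy1 : 1 ≤ y := (le_max_left _ _).trans h2
    have hy0 : 0 < y := by linarith
    have hy2 : γ * |Real.log ε| ≤ η / 4 * y := by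
      have h4 : 4 * γ * |Real.log ε| / η ≤ y := (le_max_right _ _).trans h2
      rw [div_le_iff₀ hη] at h4
      linarith
    have hlogε : |Real.log ε| = - Real.log ε := abs_of_nonpos (Real.log_nonpos hε0.le (by
      have : ε ≤ 1 / 2 := min_le_left _ _
      linarith))
    -- pointwise bounds
    set bad : Finset ℕ := (Icc 1 N).filter (fun n => ¬ |(sigma n : ℝ) - γ * Real.log n| ≤ ε * Real.log n) with hbad
    set sm : Finset ℕ := (Icc 1 N).filter (fun n => (n : ℝ) < ε * N) with hsm
    have hbadc : (bad.card : ℝ) ≤ ε * N := by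
      refine le_trans (le_of_eq ?_) h1
      rw [← Set.ncard_coe_finset]
      congr 2
      ext n
      simp only [hbad, coe_filter, mem_Icc, Set.mem_ofPred_eq]
      tauto
    have hsmc : (sm.card : ℝ) ≤ ε * N := by
      have h5 : sm ⊆ Icc 1 ⌊ε * N⌋₊ := by
        intro n hn
        rw [hsm, mem_filter, mem_Icc] at hn
        rw [mem_Icc]
        exact ⟨hn.1.1, Nat.le_floor hn.2.le⟩
      have h6 := card_le_card h5
      rw [Nat.card_Icc, Nat.add_sub_cancel] at h6
      have h7 : ((⌊ε * N⌋₊ : ℕ) : ℝ) ≤ ε * N := Nat.floor_le (by positivity)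
      have h8 : (sm.card : ℝ) ≤ ⌊ε * N⌋₊ := by exact_mod_cast h6
      linarith
    have hpt : ∀ n ∈ Icc 1 N, |min (sigma n : ℝ) (Λ * y) - γ * y| ≤
        (ε * y + γ * |Real.log ε|) + (if n ∈ bad then Λ * y else 0) + (if n ∈ sm then Λ * y else 0) := by
      intro n hn
      have hn' := mem_Icc.1 hn
      have hnr : (0 : ℝ) < n := by exact_mod_cast hn'.1
      have hs0 : (0 : ℝ) ≤ sigma n := by positivity
      have hcrude : |min (sigma n : ℝ) (Λ * y) - γ * y| ≤ Λ * y := by
        have a1 : 0 ≤ min (sigma n : ℝ) (Λ * y) := le_min hs0 (by positivity)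
        have a2 : min (sigma n : ℝ) (Λ * y) ≤ Λ * y := min_le_right _ _
        have a3 : γ * y ≤ Λ * y := mul_le_mul_of_nonneg_right hΛ.le hy0.le
        have a4 : 0 ≤ γ * y := by positivity
        rw [abs_le]; constructor <;> linarith
      have hbase : 0 ≤ ε * y + γ * |Real.log ε| := by positivity
      by_cases hb : n ∈ bad
      · rw [if_pos hb]
        split_ifs <;> [skip; skip]
        · have : 0 ≤ Λ * y := by positivity
          linarith
        · linarith
      · rw [if_neg hb]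
        by_cases hs : n ∈ sm
        · rw [if_pos hs]; linarith
        · rw [if_neg hs]
          have g1 : |(sigma n : ℝ) - γ * Real.log n| ≤ ε * Real.log n := by
            by_contra hcon
            exact hb (mem_filter.2 ⟨hn, hcon⟩)
          have g2 : ε * N ≤ n := by
            by_contra hcon
            push Not at hcon
            exact hs (mem_filter.2 ⟨hn, hcon⟩)
          have g3 : Real.log n ≤ y := Real.log_le_log hnr (by exact_mod_cast hn'.2)
          have g4 : y + Real.log ε ≤ Real.log n := by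
            have := Real.log_le_log (by positivity) g2
            rw [Real.log_mul hε0.ne' hNr.ne'] at this
            linarith
          have g5 : |(sigma n : ℝ) - γ * y| ≤ ε * y + γ * |Real.log ε| := by
            have g6 : |γ * Real.log n - γ * y| ≤ γ * |Real.log ε| := by
              rw [← mul_sub, abs_mul, abs_of_pos hγ0]
              apply mul_le_mul_of_nonneg_left _ hγ0.le
              rw [abs_le, hlogε]; constructor <;> linarith
            have g7 : (sigma n : ℝ) - γ * y = ((sigma n : ℝ) - γ * Real.log n) + (γ * Real.log n - γ * y) := by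
              ring
            rw [g7]
            refine (abs_add_le _ _).trans ?_
            have g8 : ε * Real.log n ≤ ε * y := mul_le_mul_of_nonneg_left g3 hε0.le
            linarith
          have g6 : |min (sigma n : ℝ) (Λ * y) - γ * y| ≤ |(sigma n : ℝ) - γ * y| := by
            rcases le_total (sigma n : ℝ) (Λ * y) with hl | hl
            · rw [min_eq_left hl]
            · rw [min_eq_right hl]
              have a3 : γ * y ≤ Λ * y := mul_le_mul_of_nonneg_right hΛ.le hy0.le
              rw [abs_of_nonneg (by linarith), abs_of_nonneg (by linarith)]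
              linarith
          linarith
    have hsum : |∑ n ∈ Icc 1 N, min (sigma n : ℝ) (Λ * y) - N * (γ * y)| ≤
        N * (ε * y + γ * |Real.log ε|) + bad.card * (Λ * y) + sm.card * (Λ * y) := by
      have e1 : ∑ n ∈ Icc 1 N, min (sigma n : ℝ) (Λ * y) - N * (γ * y) =
          ∑ n ∈ Icc 1 N, (min (sigma n : ℝ) (Λ * y) - γ * y) := by
        rw [sum_sub_distrib, sum_const, Nat.card_Icc, Nat.add_sub_cancel, nsmul_eq_mul]
      rw [e1]
      refine (abs_sum_le_sum_abs _ _).trans ((sum_le_sum hpt).trans (le_of_eq ?_))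
      rw [sum_add_distrib, sum_add_distrib, sum_const, Nat.card_Icc, Nat.add_sub_cancel, nsmul_eq_mul,
        ← sum_filter, ← sum_filter, sum_const, sum_const, nsmul_eq_mul, nsmul_eq_mul]
      have f1 : (Icc 1 N).filter (fun n => n ∈ bad) = bad := by
        ext n; rw [mem_filter]; exact ⟨fun h => h.2, fun h => ⟨(mem_filter.1 h).1, h⟩⟩
      have f2 : (Icc 1 N).filter (fun n => n ∈ sm) = sm := by
        ext n; rw [mem_filter]; exact ⟨fun h => h.2, fun h => ⟨(mem_filter.1 h).1, h⟩⟩
      rw [f1, f2]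
    have hfin : |∑ n ∈ Icc 1 N, min (sigma n : ℝ) (Λ * y) - N * (γ * y)| ≤ (η / 2) * (N * y) := by
      refine hsum.trans ?_
      have b1 : (bad.card : ℝ) * (Λ * y) ≤ (ε * N) * (Λ * y) := mul_le_mul_of_nonneg_right hbadc (by positivity)
      have b2 : (sm.card : ℝ) * (Λ * y) ≤ (ε * N) * (Λ * y) := mul_le_mul_of_nonneg_right hsmc (by positivity)
      have b3 : (N : ℝ) * (γ * |Real.log ε|) ≤ N * (η / 4 * y) := mul_le_mul_of_nonneg_left hy2 hNr.le
      have b4 : (ε * (1 + 2 * Λ)) * (N * y) ≤ η / 4 * (N * y) := mul_le_mul_of_nonneg_right hε1 (by positivity)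
      have b5 : (N : ℝ) * (ε * y) + (ε * N) * (Λ * y) + (ε * N) * (Λ * y) = (ε * (1 + 2 * Λ)) * (N * y) := by
        ring
      have b6 : (N : ℝ) * (ε * y + γ * |Real.log ε|) = N * (ε * y) + N * (γ * |Real.log ε|) := by ring
      rw [b6]
      linarith
    rw [Real.dist_eq]
    have e2 : (1 / (N : ℝ) * ∑ n ∈ Icc 1 N, min (sigma n : ℝ) (Λ * y)) / y - γ =
        (∑ n ∈ Icc 1 N, min (sigma n : ℝ) (Λ * y) - N * (γ * y)) / (N * y) := by
      field_simp
    rw [e2, abs_div, abs_of_pos (by positivity : (0 : ℝ) < N * y)]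
    calc |∑ n ∈ Icc 1 N, min (sigma n : ℝ) (Λ * y) - N * (γ * y)| / (N * y) ≤ (η / 2) * (N * y) / (N * y) :=
          div_le_div_of_nonneg_right hfin (by positivity)
      _ = η / 2 := by field_simp
      _ < η := by linarith
  refine ⟨main, fun c hc => ?_⟩
  have h1 := main (γ + 1) (by linarith)
  filter_upwards [h1.eventually (lt_mem_nhds hc), eventually_gt_atTop 1] with N hN hN1
  have hNr : (1 : ℝ) < N := by exact_mod_cast hN1
  have hy0 : 0 < Real.log (N : ℝ) := Real.log_pos hNr
  rw [lt_div_iff₀ hy0] at hN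
  refine hN.le.trans ?_
  apply mul_le_mul_of_nonneg_left _ (by positivity)
  exact sum_le_sum (fun n _ => min_le_left _ _)

end Pool.Agent.Results.MP_529d88_nt.TruncatedAverages
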